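import Pool.Agent.Helper41.SQ.GoalsN

/-!
Project SQ (MP_bb32d1_al), stage B, packet DP2 (dual pairs of rank 1 and 2).
-/

set_option autoImplicit false
set_option linter.unusedSectionVars false

namespace Pool.Agent.Helper90.SQN

noncomputable section

open Matrix Pool.Agent.Helper19.SQ Pool.Agent.Helper34.SQ Pool.Agent.Helper41.SQ

section

variable {A : Type} [Ring A] [Algebra ℂ A] {ι : Type} [Fintype ι] [DecidableEq ι]

theorem map_sum_entry (f : A →ₐ[ℂ] Matrix ι ι A) {κ : Type} (s : Finset κ) (g : κ → A) (i j : ι) :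
    f (∑ k ∈ s, g k) i j = ∑ k ∈ s, f (g k) i j := by
  rw [map_sum, Matrix.sum_apply]

theorem map_ite_entry (f : A →ₐ[ℂ] Matrix ι ι A) (c : Prop) [Decidable c] (a : A) (i j : ι) :
    f (if c then a else 0) i j = if c then f a i j else 0 := by
  split
  · rfl
  · rw [map_zero]; rfl

theorem cap2 (C : Core0 A ι) (b : ι → A) (k i : ι) (i' : ι) :
    ∑ p1, ∑ p2, C.ε (C.ε (C.δ (b p1) p2 k) p2 i) p1 i'
      = if i = k then ∑ p1, C.ε (b p1) p1 i' else 0 := by
  have h : ∀ p1, ∑ p2, C.ε (C.ε (C.δ (b p1) p2 k) p2 i) p1 i'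
      = if i = k then C.ε (b p1) p1 i' else 0 := fun p1 => by
    rw [← map_sum_entry, C.cap0, map_ite_entry]
  rw [Finset.sum_congr rfl fun p1 _ => h p1]
  split
  · rfl
  · exact Finset.sum_const_zero

end

theorem n_dp2 : Pool.Agent.Helper41.SQ.S_DP2 := by
  intro A _ _ ι _ _ C
  refine ⟨⟨fun a I K => C.cap0 a K I, fun a J P => C.cup0 a P J⟩, ⟨?_, ?_⟩, ?_, ?_⟩
  · intro a I K
    rw [Fintype.sum_prod_type]
    change ∑ p1, ∑ p2, C.ε (C.ε (C.δ (C.δ a p1 K.1) p2 K.2) p2 I.2) p1 I.1 = _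
    rw [cap2 C (fun p1 => C.δ a p1 K.1), C.cap0]
    by_cases h1 : I.1 = K.1
    · by_cases h2 : I.2 = K.2
      · rw [if_pos h2, if_pos h1, if_pos (Prod.ext h1 h2)]
      · rw [if_neg h2, if_neg fun h => h2 (congrArg Prod.snd h)]
    · rw [if_neg h1, if_neg fun h => h1 (congrArg Prod.fst h), ite_self]
  · intro a J P
    rw [Fintype.sum_prod_type, Finset.sum_comm]
    change ∑ i2, ∑ i1, C.δ (C.δ (C.ε (C.ε a J.2 i2) J.1 i1) P.1 i1) P.2 i2 = _
    have h : ∀ i2, ∑ i1, C.δ (C.δ (C.ε (C.ε a J.2 i2) J.1 i1) P.1 i1) P.2 i2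
        = if J.1 = P.1 then C.δ (C.ε a J.2 i2) P.2 i2 else 0 := fun i2 => by
      rw [← map_sum_entry, C.cup0, map_ite_entry]
    rw [Finset.sum_congr rfl fun i2 _ => h i2]
    by_cases h1 : J.1 = P.1
    · simp only [if_pos h1]
      rw [C.cup0]
      by_cases h2 : J.2 = P.2
      · rw [if_pos h2, if_pos (Prod.ext h1 h2)]
      · rw [if_neg h2, if_neg fun h => h2 (congrArg Prod.snd h)]
    · simp only [if_neg h1]
      rw [if_neg fun h => h1 (congrArg Prod.fst h)]
      exact Finset.sum_const_zero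
  · intro M K I
    rw [vv_apply, Fintype.sum_prod_type]
    change ∑ p1, ∑ p2, C.ε (C.ε (C.δ (M p1 K.1) p2 K.2) p2 I.2) p1 I.1 = _
    rw [cap2 C (fun p1 => M p1 K.1)]
    by_cases h2 : K.2 = I.2
    · rw [if_pos h2, if_pos h2.symm]; rfl
    · rw [if_neg h2, if_neg fun h => h2 h.symm]
  · intro M K I
    rw [vv_apply, Fintype.sum_prod_type]
    change ∑ p1, ∑ p2, C.ε (C.ε (if p1 = K.1 then M p2 K.2 else 0) p2 I.2) p1 I.1 = _
    rw [Finset.sum_eq_single K.1]
    · simp only [if_true]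
      rw [← map_sum_entry]
      rfl
    · intro b _ hb
      simp only [if_neg hb, map_zero, Matrix.zero_apply]
      exact Finset.sum_const_zero
    · intro h; exact absurd (Finset.mem_univ _) h

end

end Pool.Agent.Helper90.SQN
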